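import Mathlib
import Pool.Agent.H602R3.DHJ.Main

set_option autoImplicit false

/-!
# The multidimensional Szemerédi theorem in a cube, from the density Hales-Jewett theorem
(`Pool.Agent.H602R3.DHJ.dhj`)
-/

namespace Pool.Agent.W5h68.RA

open Finset Pool.Agent.H602R3.DHJ

/-- `A` contains a homothetic copy `a + t P`, `t ≥ 1`, of the configuration `P` -/
def Copy {e : ℕ} (P : Finset (Fin e → ℤ)) (A : Finset (Fin e → ℕ)) : Prop :=
  ∃ (a : Fin e → ℤ) (t : ℕ), 0 < t ∧ ∀ v ∈ P, ∃ b ∈ A, ∀ i, (b i : ℤ) = a i + t * v i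

open Classical in
/-- sums along a line -/
theorem line_sum {α G : Type} [AddCommGroup G] [Nonempty α] {N : ℕ} (V : Fin N → α ⊕ Unit)
    (hV : Pr V) (g : α → G) :
    ∃ (s : G) (t : ℕ), 0 < t ∧ ∀ a, ∑ i, g (ap V (fun _ => a) i) = s + t • g a := by
  refine ⟨∑ i ∈ univ.filter (fun i => ¬ V i = Sum.inr ()), g (ap V (fun _ => Classical.arbitrary α) i),
    (univ.filter (fun i => V i = Sum.inr ())).card, ?_, fun a => ?_⟩
  · obtain ⟨i, hi⟩ := hV ()
    rw [card_pos]
    exact ⟨i, mem_filter.2 ⟨mem_univ _, hi⟩⟩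
  rw [← sum_filter_add_sum_filter_not univ (fun i => V i = Sum.inr ()), add_comm]
  congr 1
  · refine sum_congr rfl fun i hi => ?_
    have h := (mem_filter.1 hi).2
    congr 1
    unfold ap
    rcases hV : V i with b | u
    · rfl
    · exact absurd (by rw [hV]) h
  · rw [← sum_const]
    refine sum_congr rfl fun i hi => ?_
    have h := (mem_filter.1 hi).2
    congr 1
    unfold ap
    rw [h]
    rfl

theorem dhjT (α : Type) [Fintype α] [Nonempty α] : D α := by
  obtain ⟨k, hk⟩ : ∃ k, Fintype.card α = k + 1 := ⟨Fintype.card α - 1, by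
    have := Fintype.card_pos (α := α)
    omega⟩
  exact D_equiv ((Fintype.equivFinOfCardEq hk).symm) (dhj k)

theorem pow_box (M N e : ℕ) (hN : 4 * M * e ≤ N) (hN0 : 0 < N) :
    ((N + 2 * M : ℕ) : ℝ) ^ e ≤ 2 * (N : ℝ) ^ e := by
  have hN0' : (0 : ℝ) < N := by exact_mod_cast hN0
  have h1 : ((N + 2 * M : ℕ) : ℝ) = (2 * M / N + 1) * N := by
    push_cast
    field_simp
    ring
  rw [h1, mul_pow]
  apply mul_le_mul_of_nonneg_right _ (by positivity)
  have h2 : (2 * (M : ℝ) / N + 1) ^ e ≤ Real.exp (2 * M / N) ^ e :=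
    pow_le_pow_left₀ (by positivity) (Real.add_one_le_exp _) e
  rw [← Real.exp_nat_mul] at h2
  refine h2.trans ?_
  have h3 : (e : ℝ) * (2 * M / N) ≤ 1 / 2 := by
    rw [← mul_div_assoc, div_le_iff₀ hN0']
    have h4 : (4 * M * e : ℝ) ≤ N := by exact_mod_cast hN
    linarith
  refine (Real.exp_le_exp.2 h3).trans ?_
  have h5 : Real.exp (1 / 2) * Real.exp (1 / 2) = Real.exp 1 := by
    rw [← Real.exp_add]
    norm_num
  have h6 := Real.exp_one_lt_d9
  nlinarith [Real.exp_pos (1 / 2 : ℝ)]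

open Classical in
/-- **the multidimensional Szemerédi theorem (Furstenberg and Katznelson) in a cube** -/
theorem szem (e : ℕ) (P : Finset (Fin e → ℤ)) (δ : ℝ) (hδ : 0 < δ) :
    ∃ L₀ : ℕ, ∀ L : ℕ, L₀ ≤ L → ∀ S : Finset (Fin e → ℕ), (∀ a ∈ S, ∀ i, a i < L) →
      δ * (L : ℝ) ^ e ≤ S.card → Copy P S := by
  rcases P.eq_empty_or_nonempty with rfl | hP
  · exact ⟨0, fun L _ S _ _ => ⟨0, 1, one_pos, fun v hv => absurd hv (notMem_empty _)⟩⟩
  have : Nonempty {v // v ∈ P} := hP.to_subtype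
  obtain ⟨N, hN⟩ := dhjT {v // v ∈ P} (δ / 2) (by positivity)
  obtain ⟨v, hv⟩ : ∃ v : (Fin N → {v // v ∈ P}) → Fin e → ℤ, v = fun w => ∑ i, (w i : Fin e → ℤ) :=
    ⟨_, rfl⟩
  obtain ⟨D, hD⟩ : ∃ D : ℕ, ∀ w j, |v w j| ≤ D := by
    refine ⟨∑ w, ∑ j, (v w j).natAbs, fun w j => ?_⟩
    rw [Int.abs_eq_natAbs]
    have h1 : (v w j).natAbs ≤ ∑ j, (v w j).natAbs :=
      single_le_sum (f := fun j => (v w j).natAbs) (fun _ _ => Nat.zero_le _) (mem_univ j)
    have h2 : ∑ j, (v w j).natAbs ≤ ∑ w, ∑ j, (v w j).natAbs :=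
      single_le_sum (f := fun w => ∑ j, (v w j).natAbs) (fun _ _ => Nat.zero_le _) (mem_univ w)
    exact_mod_cast h1.trans h2
  refine ⟨4 * D * e + 1, fun L hL S hS hSc => ?_⟩
  have hL0 : 0 < L := by omega
  have hLe : (0 : ℝ) < (L : ℝ) ^ e := by
    have : (0 : ℝ) < L := by exact_mod_cast hL0
    positivity
  set cst : (Fin e → ℕ) → (Fin e → ℤ) := fun b i => (b i : ℤ) with hcst
  have hcinj : Function.Injective cst := by
    intro a b h
    funext i
    have := congrFun h i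
    simpa [hcst] using this
  set S' : Finset (Fin e → ℤ) := S.image cst with hS'
  set Y : Finset (Fin e → ℤ) := Fintype.piFinset fun _ => Finset.Ico (-(D : ℤ)) (L + D) with hY
  have hYc : (Y.card : ℝ) ≤ 2 * (L : ℝ) ^ e := by
    have h1 : Y.card = (L + 2 * D) ^ e := by
      rw [hY, Fintype.card_piFinset]
      simp only [Int.card_Ico, prod_const, card_univ, Fintype.card_fin]
      congr 1
      omega
    rw [h1]
    push_cast
    have := pow_box D L e (by omega) hL0
    push_cast at this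
    exact this
  have hcnt : ∀ w, (S.card : ℝ) ≤ ∑ y ∈ Y, (if y + v w ∈ S' then (1 : ℝ) else 0) := by
    intro w
    rw [← sum_filter, sum_const, nsmul_eq_mul, mul_one, Nat.cast_le]
    apply card_le_card_of_injOn (fun z => cst z - v w)
    · intro z hz
      have hz' := hS z (mem_coe.1 hz)
      refine mem_coe.2 (mem_filter.2 ⟨?_, ?_⟩)
      · rw [hY, Fintype.mem_piFinset]
        intro i
        rw [mem_Ico]
        have h1 := hz' i
        have h2 := abs_le.1 (hD w i)
        have h3 : (0 : ℤ) ≤ cst z i := by simp [hcst]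
        have h4 : cst z i < L := by simp only [hcst]; exact_mod_cast h1
        simp only [Pi.sub_apply]
        constructor <;> linarith [h2.1, h2.2]
      · rw [sub_add_cancel]
        exact mem_image_of_mem _ (mem_coe.1 hz)
    · intro z _ z' _ h
      exact hcinj (sub_left_injective h)
  have hsum : (Fintype.card (Fin N → {v // v ∈ P}) : ℝ) * S.card ≤
      ∑ y ∈ Y, ∑ w, (if y + v w ∈ S' then (1 : ℝ) else 0) := by
    rw [sum_comm]
    have := sum_le_sum fun w (_ : w ∈ (univ : Finset (Fin N → {v // v ∈ P}))) => hcnt w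
    rw [sum_const, card_univ, nsmul_eq_mul] at this
    exact this
  have hcardpos : (0 : ℝ) < Fintype.card (Fin N → {v // v ∈ P}) := by
    exact_mod_cast Fintype.card_pos
  obtain ⟨y, hy⟩ : ∃ y, δ / 2 * (Fintype.card (Fin N → {v // v ∈ P}) : ℝ) ≤
      ∑ w, (if y + v w ∈ S' then (1 : ℝ) else 0) := by
    by_contra hcon
    push Not at hcon
    have h1 : ∑ y ∈ Y, ∑ w, (if y + v w ∈ S' then (1 : ℝ) else 0) ≤
        ∑ y ∈ Y, δ / 2 * (Fintype.card (Fin N → {v // v ∈ P}) : ℝ) :=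
      sum_le_sum fun y _ => (hcon y).le
    rw [sum_const, nsmul_eq_mul] at h1
    -- strictness
    have hYne : Y.Nonempty := by
      refine ⟨fun _ => 0, ?_⟩
      rw [hY, Fintype.mem_piFinset]
      intro i
      rw [mem_Ico]
      constructor
      · simp
      · have : (0 : ℤ) < L := by exact_mod_cast hL0
        positivity
    have h2 : ∑ y ∈ Y, ∑ w, (if y + v w ∈ S' then (1 : ℝ) else 0) <
        ∑ y ∈ Y, δ / 2 * (Fintype.card (Fin N → {v // v ∈ P}) : ℝ) :=
      sum_lt_sum_of_nonempty hYne fun y _ => hcon y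
    rw [sum_const, nsmul_eq_mul] at h2
    have h3 : (Y.card : ℝ) * (δ / 2 * (Fintype.card (Fin N → {v // v ∈ P}) : ℝ)) ≤
        2 * (L : ℝ) ^ e * (δ / 2 * (Fintype.card (Fin N → {v // v ∈ P}) : ℝ)) :=
      mul_le_mul_of_nonneg_right hYc (by positivity)
    have h4 := mul_le_mul_of_nonneg_left hSc hcardpos.le
    have h5 : 2 * (L : ℝ) ^ e * (δ / 2 * (Fintype.card (Fin N → {v // v ∈ P}) : ℝ)) =
      (Fintype.card (Fin N → {v // v ∈ P}) : ℝ) * (δ * (L : ℝ) ^ e) := by ring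
    linarith
  -- a line
  have hnot : ¬ LFr {w : Fin N → {v // v ∈ P} | y + v w ∈ S'} := by
    intro hl
    have h1 := hN _ hl
    have h2 : dn {w : Fin N → {v // v ∈ P} | y + v w ∈ S'} =
        (∑ w, (if y + v w ∈ S' then (1 : ℝ) else 0)) /
          Fintype.card (Fin N → {v // v ∈ P}) := by
      unfold dn av
      congr 1
      apply sum_congr rfl
      intro w _
      rw [Set.indicator_apply]
      rfl
    rw [h2, div_lt_iff₀ hcardpos] at h1
    linarith
  unfold LFr at hnot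
  push Not at hnot
  obtain ⟨V, hV, hline⟩ := hnot
  obtain ⟨s, t, ht, hst⟩ := line_sum V hV (fun a : {v // v ∈ P} => (a : Fin e → ℤ))
  refine ⟨y + s, t, ht, fun u hu => ?_⟩
  have h1 := hline ⟨u, hu⟩
  have h2 : y + v (ap V fun _ => ⟨u, hu⟩) ∈ S' := h1
  rw [hv] at h2
  simp only [hst] at h2
  obtain ⟨b, hb, hbe⟩ := mem_image.1 h2
  refine ⟨b, hb, fun i => ?_⟩
  have h3 := congrFun hbe i
  simp only [hcst, Pi.add_apply, Pi.smul_apply, smul_eq_mul, nsmul_eq_mul] at h3
  rw [h3, Pi.add_apply]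
  have h4 : ((t : Fin e → ℤ) * u) i = t * u i := rfl
  rw [h4]
  ring

end Pool.Agent.W5h68.RA
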