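import Pool.Agent.Y347.CO.Rel
import Pool.Agent.Y220.CO.Tail

set_option autoImplicit false

/-!
# Sets decided by circuits of constant depth and their dilated grids
-/

namespace Pool.Agent.W5h68.RA

open Finset Function Pool.Agent.Y347.CO Pool.Agent

section gen
variable {K : ℕ} {β : Type} [Fintype β] [DecidableEq β]

/-- flipping the bits at the places `f s` with `t s = true` -/
def flp (f : β → Fin K) (t : β → Bool) (x : Fin K → Bool) : Fin K → Bool :=
  flipSet ((univ.filter fun s => t s = true).image f) x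

theorem flp_eq {f : β → Fin K} (hf : Injective f) (t : β → Bool) (x : Fin K → Bool) :
    flp f t x = extend f (fun s => xor (x (f s)) (t s)) x := by
  funext b
  unfold flp flipSet
  by_cases h : ∃ s, f s = b
  · obtain ⟨s, rfl⟩ := h
    rw [hf.extend_apply]
    have : f s ∈ (univ.filter fun s => t s = true).image f ↔ t s = true := by
      rw [mem_image]
      constructor
      · rintro ⟨s', hs', he⟩
        rw [hf he] at hs'
        exact (mem_filter.1 hs').2
      · intro h
        exact ⟨s, mem_filter.2 ⟨mem_univ _, h⟩, rfl⟩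
    by_cases ht : t s = true
    · rw [if_pos (this.2 ht), ht]
      simp
    · rw [if_neg (fun h => ht (this.1 h))]
      have : t s = false := by simpa using ht
      rw [this]
      simp
  · rw [extend_apply' _ _ _ h, if_neg]
    intro hb
    obtain ⟨s, -, hs⟩ := mem_image.1 hb
    exact h ⟨s, hs⟩

/-- **the general form**: blocks of places given by injective maps -/
theorem gen_rel {w ℓ d : ℕ} (C : Y603.MS.Circuit w K)
    (hleak : C.leak = ∅) (hℓ : 1 ≤ ℓ) (hw : 1 ≤ w) (hd1 : 1 ≤ d) (hs : Nat.card C.Node ≤ 2 ^ ℓ)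
    (hd : ∀ v, C.depth v ≤ d) (o : C.Node) (F A : Finset (Fin K → Bool))
    (hF : ∀ x, x ∈ F ↔ C.val o x = true) {k : ℕ} (hk : 1 ≤ k) (pos : Fin k → β → Fin K)
    (hpos : ∀ j j' s s', pos j s = pos j' s' → j = j' ∧ s = s') (r : ℕ)
    (hA : ∀ j x, (univ.filter fun u : β → Bool => extend (pos j) u x ∈ A).card ≤ r)
    {ε : ℝ} (hε : 0 < ε) :
    ((A ∩ F).card : ℝ) ≤ (r / 2 ^ Fintype.card β + ε) * F.card +
      2 * Fintype.card β / ε *
        (2 ^ K * (2 : ℝ) ^ (2 * ℓ + 4 - ε / 2 * k / (d * KK d w ℓ))) := by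
  classical
  have hinj : ∀ j, Injective (pos j) := fun j s s' h => (hpos j j s s' h).2
  by_cases hlarge : 2 * (Fintype.card β : ℝ) / ε *
        (2 ^ K * (2 : ℝ) ^ (2 * ℓ + 4 - ε / 2 * k / (d * KK d w ℓ))) ≤ F.card
  · have h := rel_circ Y220.CO.done C hleak hℓ hw hd1 hs hd o (Equiv.refl _) F A hF (k := k)
      (q := Fintype.card β) hk (fun j => univ.image (pos j)) ?_ ?_ (T := β → Bool)
      (fun j t x => flp (pos j) t x) ?_ r ?_ hε hlarge
    · rw [Fintype.card_fun, Fintype.card_bool] at h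
      push_cast at h
      have h2 : 0 ≤ 2 * (Fintype.card β : ℝ) / ε *
        (2 ^ K * (2 : ℝ) ^ (2 * ℓ + 4 - ε / 2 * k / (d * KK d w ℓ))) := by positivity
      linarith
    · intro j j' hjj
      rw [disjoint_left]
      intro b hb hb'
      obtain ⟨s, -, rfl⟩ := mem_image.1 hb
      obtain ⟨s', -, h⟩ := mem_image.1 hb'
      exact hjj (hpos j' j s' s h).1.symm
    · intro j
      exact card_image_le.trans (by rw [card_univ])
    · intro j t
      refine ⟨(univ.filter fun s => t s = true).image (pos j), image_subset_image (subset_univ _),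
        fun x => rfl⟩
    · intro j x
      refine le_trans (card_le_card_of_injOn (fun t => fun s => xor (x (pos j s)) (t s)) ?_ ?_)
        (hA j x)
      · intro t ht
        have ht' := (mem_filter.1 (mem_coe.1 ht)).2
        rw [flp_eq (hinj j)] at ht'
        exact mem_coe.2 (mem_filter.2 ⟨mem_univ _, ht'⟩)
      · intro t _ t' _ h
        funext s
        have := congrFun h s
        simpa using this
  · push Not at hlarge
    have h1 : ((A ∩ F).card : ℝ) ≤ F.card := by exact_mod_cast card_le_card inter_subset_right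
    have h2 : 0 ≤ ((r : ℝ) / 2 ^ Fintype.card β + ε) * F.card := by positivity
    linarith

end gen

/-! ### numbers and words -/

/-- the number with the binary digits `x` -/
theorem ofBits_eq_sum : ∀ {n : ℕ} (x : Fin n → Bool),
    Nat.ofBits x = ∑ i : Fin n, (x i).toNat * 2 ^ (i : ℕ) := by
  intro n
  induction n with
  | zero => intro x; simp
  | succ n ih =>
    intro x
    rw [Nat.ofBits_succ, ih, Fin.sum_univ_succ, mul_sum, add_comm]
    congr 1
    · simp
    · apply sum_congr rfl
      intro i _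
      simp only [comp_apply, Fin.val_succ, pow_succ]
      ring

/-- sums over the extension of a word -/
theorem sum_extend {ι β : Type} [Fintype ι] [Fintype β] [DecidableEq ι] {f : β → ι}
    (hf : Injective f) (u : β → Bool) (x : ι → Bool) (g : ι → ℕ) :
    ∑ i, (extend f u x i).toNat * g i =
      ∑ i ∈ univ \ univ.image f, (x i).toNat * g i + ∑ s, (u s).toNat * g (f s) := by
  rw [← sum_sdiff (subset_univ (univ.image f))]
  congr 1
  · apply sum_congr rfl
    intro i hi
    rw [extend_apply']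
    rintro ⟨s, rfl⟩
    exact (mem_sdiff.1 hi).2 (mem_image_of_mem _ (mem_univ _))
  · rw [sum_image fun a _ b _ h => hf h]
    apply sum_congr rfl
    intro s _
    rw [hf.extend_apply]

section vec
variable {e M K m : ℕ}

/-- the point with the binary digits `z` -/
def pt (σ : Fin e × Fin M ≃ Fin K) (z : Fin K → Bool) : Fin e → ℕ :=
  fun i => Nat.ofBits fun t => z (σ (i, t))

/-- the binary digits of a point -/
def wd (σ : Fin e × Fin M ≃ Fin K) (a : Fin e → ℕ) : Fin K → Bool :=
  fun b => (a (σ.symm b).1).testBit (σ.symm b).2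

theorem pt_lt (σ : Fin e × Fin M ≃ Fin K) (z : Fin K → Bool) (i : Fin e) : pt σ z i < 2 ^ M :=
  Nat.ofBits_lt_two_pow _

theorem pt_wd (σ : Fin e × Fin M ≃ Fin K) (a : Fin e → ℕ) (ha : ∀ i, a i < 2 ^ M) :
    pt σ (wd σ a) = a := by
  funext i
  unfold pt wd
  simp only [Equiv.symm_apply_apply]
  rw [Nat.ofBits_testBit, Nat.mod_eq_of_lt (ha i)]

theorem wd_pt (σ : Fin e × Fin M ≃ Fin K) (z : Fin K → Bool) : wd σ (pt σ z) = z := by
  funext b
  unfold pt wd
  rw [Nat.testBit_ofBits_lt _ _ (σ.symm b).2.2]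
  simp

theorem lt_of_blk {j : Fin (M / m)} (s : Fin m) : (j : ℕ) * m + s < M := by
  have h1 : ((j : ℕ) + 1) * m ≤ M / m * m := Nat.mul_le_mul_right _ j.2
  have h2 := Nat.div_mul_le_self M m
  have h3 := s.2
  have h4 : ((j : ℕ) + 1) * m = j * m + m := by ring
  omega

/-- the places of the `j`-th block of one coordinate -/
def ro (j : Fin (M / m)) (s : Fin m) : Fin M := ⟨j * m + s, lt_of_blk s⟩

theorem ro_inj (j j' : Fin (M / m)) (s s' : Fin m) (h : ro j s = ro j' s') : j = j' ∧ s = s' := by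
  have h1 : (j : ℕ) * m + s = j' * m + s' := congrArg Fin.val h
  have hm : 0 < m := s.pos
  have h2 := congrArg (fun n => n / m) h1
  have h3 := congrArg (fun n => n % m) h1
  simp only [mul_comm _ m] at h2 h3
  rw [Nat.mul_add_div hm, Nat.mul_add_div hm, Nat.div_eq_of_lt s.2, Nat.div_eq_of_lt s'.2] at h2
  rw [Nat.mul_add_mod, Nat.mul_add_mod, Nat.mod_eq_of_lt s.2, Nat.mod_eq_of_lt s'.2] at h3
  exact ⟨Fin.ext (by omega), Fin.ext h3⟩

/-- the places of the `j`-th block -/
def ps (σ : Fin e × Fin M ≃ Fin K) (j : Fin (M / m)) (s : Fin e × Fin m) : Fin K :=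
  σ (s.1, ro j s.2)

theorem ps_inj (σ : Fin e × Fin M ≃ Fin K) (j j' : Fin (M / m)) (s s' : Fin e × Fin m)
    (h : ps σ j s = ps σ j' s') : j = j' ∧ s = s' := by
  have h1 := σ.injective h
  have h2 := congrArg Prod.fst h1
  have h3 := ro_inj _ _ _ _ (congrArg Prod.snd h1)
  exact ⟨h3.1, Prod.ext h2 h3.2⟩

theorem ofBits_extend (j : Fin (M / m)) (u : Fin m → Bool) (x : Fin M → Bool) :
    Nat.ofBits (extend (ro j) u x) =
      Nat.ofBits (extend (ro j) (fun _ => false) x) + 2 ^ ((j : ℕ) * m) * Nat.ofBits u := by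
  have hinj : Injective (ro j : Fin m → Fin M) := fun s s' h => (ro_inj j j s s' h).2
  rw [ofBits_eq_sum, ofBits_eq_sum, ofBits_eq_sum u, sum_extend hinj, sum_extend hinj]
  have h0 : ∑ s : Fin m, (false).toNat * 2 ^ ((ro j s : Fin M) : ℕ) = 0 := by simp
  rw [h0, add_zero, mul_sum]
  congr 1
  apply sum_congr rfl
  intro s _
  show (u s).toNat * 2 ^ ((j : ℕ) * m + s) = _
  rw [pow_add]
  ring

theorem pt_extend (σ : Fin e × Fin M ≃ Fin K) (j : Fin (M / m)) (u : Fin e × Fin m → Bool)
    (z : Fin K → Bool) (i : Fin e) :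
    pt σ (extend (ps σ j) u z) i = pt σ (extend (ps σ j) (fun _ => false) z) i +
      2 ^ ((j : ℕ) * m) * Nat.ofBits fun s => u (i, s) := by
  have hinj : Injective (ro j : Fin m → Fin M) := fun s s' h => (ro_inj j j s s' h).2
  have hinj' : Injective (ps σ j : Fin e × Fin m → Fin K) :=
    fun s s' h => (ps_inj σ j j s s' h).2
  have key : ∀ u : Fin e × Fin m → Bool, (fun t => extend (ps σ j) u z (σ (i, t))) =
      extend (ro j) (fun s => u (i, s)) (fun t => z (σ (i, t))) := by
    intro u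
    funext t
    by_cases h : ∃ s, ro j s = t
    · obtain ⟨s, rfl⟩ := h
      rw [hinj.extend_apply]
      exact hinj'.extend_apply u z (i, s)
    · rw [extend_apply' _ _ _ h, extend_apply']
      rintro ⟨s, hs⟩
      have h1 := σ.injective hs
      exact h ⟨s.2, congrArg Prod.snd h1⟩
  unfold pt
  rw [key, key, ofBits_extend]

/-- **the relative density in a set decided by a circuit is at most the largest density in a
dilated grid** -/
theorem main_add {w ℓ d : ℕ} (C : Y603.MS.Circuit w K)
    (hleak : C.leak = ∅) (hℓ : 1 ≤ ℓ) (hw : 1 ≤ w) (hd1 : 1 ≤ d) (hs : Nat.card C.Node ≤ 2 ^ ℓ)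
    (hd : ∀ v, C.depth v ≤ d) (o : C.Node) (σ : Fin e × Fin M ≃ Fin K)
    (F A : Finset (Fin e → ℕ)) (hF0 : ∀ a ∈ F, ∀ i, a i < 2 ^ M)
    (hF : ∀ a, (∀ i, a i < 2 ^ M) → (a ∈ F ↔ C.val o (wd σ a) = true))
    (hm : 1 ≤ m) (hmM : m ≤ M) (r : ℕ)
    (hr : ∀ (c : Fin e → ℕ) (t : ℕ), 0 < t →
      ((Fintype.piFinset fun _ : Fin e => range (2 ^ m)).filter
        fun u => (fun i => c i + t * u i) ∈ A).card ≤ r)
    {ε : ℝ} (hε : 0 < ε) :
    ((A ∩ F).card : ℝ) ≤ (r / 2 ^ (e * m) + ε) * F.card +
      2 * (e * m : ℕ) / ε *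
        (2 ^ K * (2 : ℝ) ^ (2 * ℓ + 4 - ε / 2 * (M / m : ℕ) / (d * KK d w ℓ))) := by
  classical
  set F' : Finset (Fin K → Bool) := univ.filter fun z => C.val o z = true with hF'
  set A' : Finset (Fin K → Bool) := univ.filter fun z => pt σ z ∈ A with hA'
  have h := gen_rel C hleak hℓ hw hd1 hs hd o F' A' (fun x => by simp [hF'])
    ((Nat.one_le_div_iff hm).2 hmM) (fun j : Fin (M / m) => ps σ j)
    (fun j j' s s' h => ps_inj σ j j' s s' h) r ?_ hε
  · rw [Fintype.card_prod, Fintype.card_fin, Fintype.card_fin] at h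
    have h1 : (A ∩ F).card ≤ (A' ∩ F').card := by
      refine card_le_card_of_injOn (wd σ) ?_ ?_
      · intro a ha
        have ha' := mem_inter.1 (mem_coe.1 ha)
        have h2 := hF0 a ha'.2
        refine mem_coe.2 (mem_inter.2 ⟨mem_filter.2 ⟨mem_univ _, ?_⟩,
          mem_filter.2 ⟨mem_univ _, (hF a h2).1 ha'.2⟩⟩)
        rw [pt_wd σ a h2]
        exact ha'.1
      · intro a ha b hb hab
        have ha' := hF0 a (mem_inter.1 (mem_coe.1 ha)).2
        have hb' := hF0 b (mem_inter.1 (mem_coe.1 hb)).2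
        rw [← pt_wd σ a ha', ← pt_wd σ b hb', hab]
    have h2 : F'.card ≤ F.card := by
      refine card_le_card_of_injOn (pt σ) ?_ ?_
      · intro z hz
        have hz' := (mem_filter.1 (mem_coe.1 hz)).2
        refine mem_coe.2 ((hF _ (pt_lt σ z)).2 ?_)
        rw [wd_pt]
        exact hz'
      · intro z _ z' _ hzz
        rw [← wd_pt σ z, hzz, wd_pt]
    have h1' : ((A ∩ F).card : ℝ) ≤ (A' ∩ F').card := by exact_mod_cast h1
    have h2' : (F'.card : ℝ) ≤ F.card := by exact_mod_cast h2
    have h3 : 0 ≤ (r : ℝ) / 2 ^ (e * m) + ε := by positivity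
    have h4 := mul_le_mul_of_nonneg_left h2' h3
    linarith
  · intro j z
    refine le_trans ?_ (hr (pt σ (extend (ps σ j) (fun _ => false) z)) (2 ^ ((j : ℕ) * m))
      (by positivity))
    refine card_le_card_of_injOn (fun u => fun i => Nat.ofBits fun s => u (i, s)) ?_ ?_
    · intro u hu
      have hu' := (mem_filter.1 ((mem_filter.1 (mem_coe.1 hu)).2)).2
      refine mem_coe.2 (mem_filter.2 ⟨?_, ?_⟩)
      · rw [Fintype.mem_piFinset]
        intro i
        exact mem_range.2 (Nat.ofBits_lt_two_pow _)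
      · convert hu' using 1
        funext i
        exact (pt_extend σ j u z i).symm
    · intro u _ u' _ huu
      funext s
      obtain ⟨i, s⟩ := s
      have h1 := congrFun huu i
      have h2 := congrArg (fun n : ℕ => n.testBit s) h1
      simpa using h2

end vec

end Pool.Agent.W5h68.RA
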